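import Pool.Agent.Helper81.SB.Basic

/-! Packet SB SPLIT (helper39): a splitting family of size `ℵ₁` and `Dag` give a rich family of colourings. -/

set_option autoImplicit false

namespace Pool.Agent.Helper39.SB

open Set Cardinal Filter Pool.Agent.Helper81.SB

open Classical in
/-- the first difference colouring -/
noncomputable def chi (x : W → Set ℕ) (p : Set W × (W → ℕ)) (k l : ℕ) : ℕ :=
  if h : ({ξ | ξ ∈ p.1 ∧ ¬ (k ∈ x ξ ↔ l ∈ x ξ)} : Set W).Nonempty then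
    p.2 (WellFounded.min (wellFounded_lt (α := W)) _ h)
  else 0

theorem chi_eq {x : W → Set ℕ} {p : Set W × (W → ℕ)} {k l : ℕ} {ξ : W} (hξ : ξ ∈ p.1)
    (hd : ¬ (k ∈ x ξ ↔ l ∈ x ξ)) (hlt : ∀ η ∈ p.1, η < ξ → (k ∈ x η ↔ l ∈ x η)) :
    chi x p k l = p.2 ξ := by
  have h : ({ξ | ξ ∈ p.1 ∧ ¬ (k ∈ x ξ ↔ l ∈ x ξ)} : Set W).Nonempty := ⟨ξ, hξ, hd⟩
  unfold chi
  rw [dif_pos h]
  have hmem := WellFounded.min_mem (wellFounded_lt (α := W)) _ h
  have h1 : ¬ ξ < WellFounded.min (wellFounded_lt (α := W)) _ h :=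
    WellFounded.not_lt_min (wellFounded_lt (α := W)) (s := {ξ | ξ ∈ p.1 ∧ ¬ (k ∈ x ξ ↔ l ∈ x ξ)}) ⟨hξ, hd⟩
  have h2 : ¬ WellFounded.min (wellFounded_lt (α := W)) _ h < ξ := by
    intro h3
    exact hmem.2 (hlt _ hmem.1 h3)
  exact congrArg p.2 (le_antisymm (not_lt.1 h1) (not_lt.1 h2))

/-- increasing enumeration of an infinite set with finite initial segments -/
theorem exists_enum {E : Set W} (hE : E.Infinite) (hfin : ∀ ξ ∈ E, {η | η ∈ E ∧ η < ξ}.Finite) :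
    ∃ g : ℕ → W, StrictMono g ∧ range g = E := by
  have hnext : ∀ ξ : E, ({η | η ∈ E ∧ ξ.1 < η} : Set W).Nonempty := by
    intro ξ
    by_contra hcon
    rw [Set.not_nonempty_iff_eq_empty] at hcon
    apply hE
    refine ((hfin ξ.1 ξ.2).insert ξ.1).subset ?_
    intro η hη
    rcases lt_trichotomy η ξ.1 with h | h | h
    · exact mem_insert_of_mem _ ⟨hη, h⟩
    · rw [h]; exact mem_insert _ _
    · exact absurd (show η ∈ ({η | η ∈ E ∧ ξ.1 < η} : Set W) from ⟨hη, h⟩) (by rw [hcon]; simp)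
  let nx : E → E := fun ξ =>
    ⟨WellFounded.min (wellFounded_lt (α := W)) _ (hnext ξ),
      (WellFounded.min_mem (wellFounded_lt (α := W)) _ (hnext ξ)).1⟩
  have hnx1 : ∀ ξ : E, ξ.1 < (nx ξ).1 := fun ξ =>
    (WellFounded.min_mem (wellFounded_lt (α := W)) _ (hnext ξ)).2
  have hnx2 : ∀ ξ : E, ∀ η ∈ E, ξ.1 < η → (nx ξ).1 ≤ η := fun ξ η hη h =>
    not_lt.1 (WellFounded.not_lt_min (wellFounded_lt (α := W)) (s := {η | η ∈ E ∧ ξ.1 < η}) ⟨hη, h⟩)
  let z : E := ⟨WellFounded.min (wellFounded_lt (α := W)) E hE.nonempty,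
    WellFounded.min_mem (wellFounded_lt (α := W)) _ _⟩
  have hz : ∀ η ∈ E, z.1 ≤ η := fun η hη =>
    not_lt.1 (WellFounded.not_lt_min (wellFounded_lt (α := W)) _ hη)
  let g : ℕ → E := fun n => Nat.rec z (fun _ y => nx y) n
  have hg0 : g 0 = z := rfl
  have hgs : ∀ n, g (n + 1) = nx (g n) := fun n => rfl
  have hmono : StrictMono (fun n => (g n).1) := by
    apply strictMono_nat_of_lt_succ
    intro n
    show (g n).1 < (g (n + 1)).1
    rw [hgs]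
    exact hnx1 _
  refine ⟨fun n => (g n).1, hmono, ?_⟩
  apply Set.Subset.antisymm
  · rintro _ ⟨n, rfl⟩
    exact (g n).2
  · intro η hη
    by_contra hnot
    have hne : ∀ n, (g n).1 ≠ η := fun n h => hnot ⟨n, h⟩
    have hall : ∀ n, (g n).1 < η := by
      intro n
      induction n with
      | zero => exact lt_of_le_of_ne (hz η hη) (hne 0)
      | succ n ih =>
        refine lt_of_le_of_ne ?_ (hne (n + 1))
        rw [hgs]
        exact hnx2 _ η hη ih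
    have hinf : (range (fun n => (g n).1)).Infinite := Set.infinite_range_of_injective hmono.injective
    apply hinf
    refine (hfin η hη).subset ?_
    rintro _ ⟨n, rfl⟩
    exact ⟨(g n).2, hall n⟩

/-- a pseudo-intersection -/
theorem exists_pseudo (b : Set ℕ) (Q : ℕ → ℕ → Prop)
    (h : ∀ n, {k | k ∈ b ∧ ∀ i ≤ n, Q i k}.Infinite) :
    ∃ b' : Set ℕ, b'.Infinite ∧ b' ⊆ b ∧ ∀ i, {k | k ∈ b' ∧ ¬ Q i k}.Finite := by
  have hex : ∀ n m : ℕ, ∃ k, k ∈ {k | k ∈ b ∧ ∀ i ≤ n, Q i k} ∧ m < k := fun n m =>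
    (h n).exists_gt m
  choose c hc1 hc2 using hex
  let s : ℕ → ℕ := fun n => Nat.rec (c 0 0) (fun j y => c (j + 1) y) n
  have hs0 : s 0 = c 0 0 := rfl
  have hss : ∀ n, s (n + 1) = c (n + 1) (s n) := fun n => rfl
  have hmono : StrictMono s := by
    apply strictMono_nat_of_lt_succ
    intro n
    rw [hss]
    exact hc2 _ _
  have hmem : ∀ n, s n ∈ {k | k ∈ b ∧ ∀ i ≤ n, Q i k} := by
    intro n
    cases n with
    | zero => exact hc1 _ _
    | succ n => rw [hss]; exact hc1 _ _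
  refine ⟨range s, Set.infinite_range_of_injective hmono.injective, ?_, ?_⟩
  · rintro _ ⟨n, rfl⟩
    exact (hmem n).1
  · intro i
    refine ((Set.finite_Iio i).image s).subset ?_
    rintro _ ⟨⟨n, rfl⟩, hn⟩
    refine ⟨n, ?_, rfl⟩
    by_contra hcon
    exact hn ((hmem n).2 i (not_lt.1 hcon))

theorem split_holds : Goal_SPLIT := by
  intro S hS hsplit hdag
  obtain ⟨x0, hx0, -, -⟩ := hsplit univ Set.infinite_univ
  obtain ⟨x, hx⟩ := exists_surj S hS ⟨x0, hx0⟩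
  obtain ⟨𝒮, hcard, hini, hD⟩ := hdag
  refine ⟨(chi x) '' 𝒮, mk_image_le.trans hcard, ?_⟩
  intro b hb
  -- the ultrafilter
  have hne : (cofinite ⊓ 𝓟 b : Filter ℕ).NeBot := by
    rw [Filter.inf_principal_neBot_iff]
    intro U hU
    have hUc : (Uᶜ).Finite := hU
    by_contra hcon
    rw [Set.not_nonempty_iff_eq_empty] at hcon
    apply hb
    refine hUc.subset ?_
    intro k hk hkU
    have : k ∈ U ∩ b := ⟨hkU, hk⟩
    rw [hcon] at this
    exact this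
  let 𝒰 : Ultrafilter ℕ := Ultrafilter.of (cofinite ⊓ 𝓟 b)
  have h𝒰 : (𝒰 : Filter ℕ) ≤ cofinite ⊓ 𝓟 b := Ultrafilter.of_le _
  have hbU : b ∈ 𝒰 := (h𝒰.trans inf_le_right) (mem_principal_self b)
  have hinfU : ∀ A : Set ℕ, A ∈ 𝒰 → A.Infinite := by
    intro A hA hfin
    have h1 : Aᶜ ∈ 𝒰 := (h𝒰.trans inf_le_left) (by rw [mem_cofinite, compl_compl]; exact hfin)
    exact (Ultrafilter.compl_notMem_iff.2 hA) h1
  let ag : ℕ → W → Prop := fun k ξ => (k ∈ x ξ ↔ x ξ ∈ 𝒰)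
  have hag1 : ∀ ξ, {k | ag k ξ} ∈ 𝒰 := by
    intro ξ
    by_cases h : x ξ ∈ 𝒰
    · refine Filter.mem_of_superset h ?_
      intro k hk
      exact ⟨fun _ => h, fun _ => hk⟩
    · have h' : (x ξ)ᶜ ∈ 𝒰 := Ultrafilter.compl_mem_iff_notMem.2 h
      refine Filter.mem_of_superset h' ?_
      intro k hk
      exact ⟨fun h2 => absurd h2 hk, fun h2 => absurd h2 h⟩
  have hagF : ∀ F : Set W, F.Finite → {k | k ∈ b ∧ ∀ η ∈ F, ag k η}.Infinite := by
    intro F hF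
    apply hinfU
    have h1 : (⋂ η ∈ F, {k | ag k η}) ∈ 𝒰 := (Filter.biInter_mem hF).2 fun η _ => hag1 η
    refine Filter.mem_of_superset (Filter.inter_mem hbU h1) ?_
    rintro k ⟨hk1, hk2⟩
    refine ⟨hk1, fun η hη => ?_⟩
    rw [Set.mem_iInter₂] at hk2
    exact hk2 η hη
  let D : Set W := {ξ | ∀ F : Set W, F.Finite → (∀ η ∈ F, η < ξ) →
    {k | k ∈ b ∧ (∀ η ∈ F, ag k η) ∧ ¬ ag k ξ}.Infinite}
  have hDunc : ¬ D.Countable := by
    intro hDc
    obtain ⟨β, hβ⟩ := W_bdd D hDc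
    have hex : ∃ e : ℕ → W, ∀ ξ, ξ < β → ∃ i, e i = ξ := by
      by_cases hem : (Iio β : Set W).Nonempty
      · obtain ⟨e, he⟩ := (W_Iio β).exists_eq_range hem
        refine ⟨e, fun ξ hξ => ?_⟩
        have : ξ ∈ range e := by rw [← he]; exact hξ
        exact this
      · rw [Set.not_nonempty_iff_eq_empty] at hem
        refine ⟨fun _ => β, fun ξ hξ => ?_⟩
        have : ξ ∈ (Iio β : Set W) := hξ
        rw [hem] at this
        exact absurd this (by simp)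
    obtain ⟨e, he⟩ := hex
    obtain ⟨b', hb'inf, hb'b, hb'⟩ := exists_pseudo b (fun i k => ag k (e i)) (by
      intro n
      refine (hagF (e '' Iic n) ((Set.finite_Iic n).image e)).mono ?_
      rintro k ⟨hk1, hk2⟩
      exact ⟨hk1, fun i hi => hk2 _ ⟨i, hi, rfl⟩⟩)
    have hnon : ({ξ | {k | k ∈ b' ∧ ¬ ag k ξ}.Infinite} : Set W).Nonempty := by
      obtain ⟨y, hy, h1, h2⟩ := hsplit b' hb'inf
      rw [← hx] at hy
      obtain ⟨ξ, rfl⟩ := hy
      refine ⟨ξ, ?_⟩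
      by_cases h : x ξ ∈ 𝒰
      · refine h2.mono ?_
        rintro k ⟨hk1, hk2⟩
        exact ⟨hk1, fun h3 => hk2 (h3.2 h)⟩
      · refine h1.mono ?_
        rintro k ⟨hk1, hk2⟩
        exact ⟨hk1, fun h3 => h (h3.1 hk2)⟩
    obtain ⟨ξ, hξ, hmin⟩ := WellFounded.has_min (wellFounded_lt (α := W)) _ hnon
    have hmin' : ∀ η, η < ξ → {k | k ∈ b' ∧ ¬ ag k η}.Finite := by
      intro η hη
      by_contra hcon
      exact hmin η hcon hη
    have hξβ : ¬ ξ < β := by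
      intro hlt
      obtain ⟨i, hi⟩ := he ξ hlt
      apply (show {k | k ∈ b' ∧ ¬ ag k ξ}.Infinite from hξ)
      rw [← hi]
      exact hb' i
    apply hξβ
    apply hβ
    intro F hF hFlt
    have hfin : (⋃ η ∈ F, {k | k ∈ b' ∧ ¬ ag k η}).Finite :=
      hF.biUnion fun η hη => hmin' η (hFlt η hη)
    refine ((show {k | k ∈ b' ∧ ¬ ag k ξ}.Infinite from hξ).sdiff hfin).mono ?_
    rintro k ⟨⟨hk1, hk2⟩, hk3⟩
    refine ⟨hb'b hk1, fun η hη => ?_, hk2⟩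
    by_contra hcon
    apply hk3
    rw [Set.mem_iUnion₂]
    exact ⟨η, hη, hk1, hcon⟩
  obtain ⟨p, hp, hpinf⟩ := hD D hDunc
  have hEinf : (p.1 ∩ D).Infinite := by
    refine (hpinf 0).mono ?_
    rintro ξ ⟨h1, h2, -⟩
    exact ⟨h1, h2⟩
  obtain ⟨g, hgmono, hgr⟩ := exists_enum hEinf (by
    rintro ξ ⟨h1, h2⟩
    refine (hini p hp ξ h1).subset ?_
    rintro η ⟨⟨h3, h4⟩, h5⟩
    exact ⟨h3, h5⟩)
  have hgE : ∀ i, g i ∈ p.1 ∩ D := fun i => by rw [← hgr]; exact ⟨i, rfl⟩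
  refine ⟨chi x p, ⟨p, hp, rfl⟩, fun i => {k | k ∈ b ∧ (∀ η ∈ {η | η ∈ p.1 ∧ η < g i}, ag k η) ∧ ¬ ag k (g i)},
    fun i => p.2 (g i), ?_, ?_, ?_⟩
  · intro i
    refine ⟨(hgE i).2 _ (hini p hp _ (hgE i).1) (fun η hη => hη.2), ?_⟩
    intro k hk
    exact hk.1
  · rintro i j hij k ⟨hk1, hk2, hk3⟩ l ⟨hl1, hl2, hl3⟩ hkl
    have hlt : g i < g j := hgmono hij
    apply chi_eq (hgE i).1
    · intro hiff
      apply hk3
      have h1 : ag l (g i) := hl2 _ ⟨(hgE i).1, hlt⟩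
      exact hiff.trans h1
    · intro η hη hηlt
      have h1 : ag k η := hk2 _ ⟨hη, hηlt⟩
      have h2 : ag l η := hl2 _ ⟨hη, hηlt.trans hlt⟩
      exact h1.trans h2.symm
  · intro n hfin
    apply hpinf n
    refine (hfin.image g).subset ?_
    rintro ξ ⟨h1, h2, h3⟩
    have : ξ ∈ range g := by rw [hgr]; exact ⟨h1, h2⟩
    obtain ⟨i, rfl⟩ := this
    exact ⟨i, h3, rfl⟩

end Pool.Agent.Helper39.SB

namespace Pool.Agent.Helper81.SB
theorem goal_SPLIT : Goal_SPLIT := Pool.Agent.Helper39.SB.split_holds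
end Pool.Agent.Helper81.SB
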